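import Pool.Agent.helper80.SV.Spec

/-!
# Project sv (MP_b5a345_ag), module VIS: visible gradients
-/

set_option autoImplicit false

namespace Pool.Agent.SV

open MvPolynomial Module

theorem VIS (hEUL : EUL_stmt) : VIS_stmt := by
  rintro ι κ _ _ _ _ c A B d ⟨k, hk⟩ f hf ⟨w, hw⟩
  refine ⟨w, fun h => ?_⟩
  have h1 := hEUL c B d f hf k (cut A w)
  have h2 : ∑ i ∈ Finset.univ.filter (fun i => c i = k),
      cut A w i * eval (cut A w) (pderiv i f) = 0 := by
    refine Finset.sum_eq_zero fun i _ => ?_
    by_cases hi : i ∈ A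
    · have h3 := congrFun h i
      rw [gradL_apply, if_pos hi] at h3
      rw [h3]
      simp
    · simp [cut, hi]
  rw [h2] at h1
  have h4 : (d k : ℂ) ≠ 0 := by
    have : d k ≠ 0 := by omega
    exact_mod_cast this
  exact hw ((mul_eq_zero.1 h1.symm).resolve_left h4)

end Pool.Agent.SV
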